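import Pool.Agent.R616.DI.Rea
import Pool.Agent.Q203.BD.Main

/-!
Borel sets of oracles with members of cofinally many degrees: such a set contains a closed set of
this kind (Martin's argument, from Borel determinacy).
-/

set_option autoImplicit false

namespace Pool.Agent.V7H66.BO

open Nat.Partrec (Code)
open Encodable
open Pool.Agent.H639.LU Pool.Agent.H869R3.FN Pool.Agent.R616.DI Pool.Agent.Y579.PP
open Pool.Agent.Helper446.Defs Pool.Agent.Helper446.Oracle
open Q203.BD

/-- Borel sets of oracles -/
def Bor (B : Set (ℕ → Bool)) : Prop := @MeasurableSet (ℕ → Bool) (borel (ℕ → Bool)) B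

theorem bor_iff (B : Set (ℕ → Bool)) : Bor B ↔ MeasurableSet B := by
  unfold Bor
  rw [← BorelSpace.measurable_eq (α := ℕ → Bool)]

theorem meas_seg (s : ℕ) : ∀ P : Str → Prop, MeasurableSet {X : ℕ → Bool | P (seg X s)} := by
  induction s with
  | zero =>
    intro P
    have h : {X : ℕ → Bool | P (seg X 0)} = {X : ℕ → Bool | P []} := by
      ext X
      simp [seg]
    rw [h]
    exact MeasurableSet.const _
  | succ s ih =>
    intro P
    have h : {X : ℕ → Bool | P (seg X (s + 1))} =
        ({X : ℕ → Bool | P (seg X s ++ [true])} ∩ {X | X s = true}) ∪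
        ({X : ℕ → Bool | P (seg X s ++ [false])} ∩ {X | X s = false}) := by
      ext X
      have e := seg_succ' X s
      change P (seg X (s + 1)) ↔ (P (seg X s ++ [true]) ∧ X s = true) ∨
        (P (seg X s ++ [false]) ∧ X s = false)
      rw [e]
      cases h : X s <;> simp
    rw [h]
    have h1 : ∀ b : Bool, MeasurableSet {X : ℕ → Bool | X s = b} := fun b =>
      measurableSet_preimage (measurable_pi_apply (X := fun _ : ℕ => Bool) s)
        (MeasurableSet.singleton b)
    exact ((ih (fun σ => P (σ ++ [true]))).inter (h1 true)).union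
      ((ih (fun σ => P (σ ++ [false]))).inter (h1 false))

theorem meas_seg' {α : Type*} [MeasurableSpace α] {f : α → ℕ → Bool} (hf : Measurable f) (s : ℕ)
    (P : Str → Prop) : Measurable fun a => P (seg (f a) s) :=
  measurableSet_setOfPred.1 (hf (meas_seg s P))

theorem meas_bit {α : Type*} [MeasurableSpace α] {f : α → ℕ → Bool} (hf : Measurable f) (n : ℕ)
    (P : Bool → Prop) : Measurable fun a => P (f a n) := by
  have h : Measurable fun a => f a n := (measurable_pi_apply n).comp hf
  exact measurableSet_setOfPred.1 (h (MeasurableSet.of_discrete (s := {b | P b})))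

theorem meas_red {α : Type*} [MeasurableSpace α] {f g : α → ℕ → Bool} (hf : Measurable f)
    (hg : Measurable g) (c : Code) : Measurable fun a => Red c (f a) (g a) := by
  unfold Red
  refine Measurable.forall fun n => Measurable.forall fun v => Measurable.iff ?_ ?_
  · exact Measurable.exists fun s => meas_seg' hf s (fun σ => v ∈ c.eval (encode (n, σ)))
  · exact meas_bit hg n (fun b => v = b.toNat)

theorem clo_of_closed {F : Set (ℕ → Bool)} (h : IsClosed F) : Clo F := by
  intro X hX
  rw [← h.closure_eq, mem_closure_iff]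
  intro o ho hXo
  obtain ⟨I, v, hv, hvU⟩ := isOpen_pi_iff.1 ho X hXo
  obtain ⟨N, hN⟩ : ∃ N, ∀ i ∈ I, i < N :=
    ⟨I.sup id + 1, fun i hi => Nat.lt_succ_of_le (Finset.le_sup (f := id) hi)⟩
  obtain ⟨X', hX', e⟩ := hX N
  refine ⟨X', hvU fun i hi => ?_, hX'⟩
  rw [seg_inj e (hN i hi)]
  exact (hv i hi).2

theorem bor_of_clo {F : Set (ℕ → Bool)} (h : Clo F) : Bor F := by
  rw [bor_iff]
  have e : F = {X : ℕ → Bool | ∀ t, (fun σ => ∃ X' ∈ F, seg X' t = σ) (seg X t)} := by
    ext X
    exact ⟨fun hX t => ⟨X, hX, rfl⟩, fun hX => h X hX⟩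
  rw [e]
  exact measurableSet_setOfPred.2 (Measurable.forall fun t =>
    meas_seg' measurable_id t (fun σ => ∃ X' ∈ F, seg X' t = σ))

/-- even part -/
def ev (p : ℕ → Bool) : ℕ → Bool := fun i => p (2 * i)

/-- odd part -/
def od (p : ℕ → Bool) : ℕ → Bool := fun i => p (2 * i + 1)

theorem meas_ev : Measurable ev := measurable_pi_lambda _ fun _ => measurable_pi_apply _

theorem meas_od : Measurable od := measurable_pi_lambda _ fun _ => measurable_pi_apply _

/-- the history of the play where the first player follows `σ` and the second plays `y` -/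
def ph1 (σ : List Bool → Bool) (y : ℕ → Bool) : ℕ → List Bool
  | 0 => []
  | n + 1 => (if Even n then σ (ph1 σ y n) else y (n / 2)) :: ph1 σ y n

/-- the play -/
def pl1 (σ : List Bool → Bool) (y : ℕ → Bool) (n : ℕ) : Bool :=
  if Even n then σ (ph1 σ y n) else y (n / 2)

theorem hist_pl1 (σ : List Bool → Bool) (y : ℕ → Bool) (n : ℕ) :
    hist (pl1 σ y) n = ph1 σ y n := by
  induction n with
  | zero => rfl
  | succ n ih => rw [hist_succ, ih]; rfl

theorem od_pl1 (σ : List Bool → Bool) (y : ℕ → Bool) : od (pl1 σ y) = y := by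
  funext i
  have h : ¬ Even (2 * i + 1) := by grind
  simp only [od, pl1, if_neg h]
  congr 1
  omega

theorem cont_pl1 (σ : List Bool → Bool) : Continuous (fun y => ev (pl1 σ y)) := by
  let _ : TopologicalSpace (List Bool) := ⊥
  have _ : DiscreteTopology (List Bool) := ⟨rfl⟩
  have h : ∀ n, Continuous (fun y => ph1 σ y n) := by
    intro n
    induction n with
    | zero => exact continuous_const
    | succ n ih =>
      have h1 : Continuous (fun q : Bool × List Bool =>
          (if Even n then σ q.2 else q.1) :: q.2) := continuous_of_discreteTopology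
      have h2 : Continuous (fun y : ℕ → Bool => (y (n / 2), ph1 σ y n)) :=
        (continuous_apply (n / 2)).prodMk ih
      exact h1.comp h2
  refine continuous_pi fun i => ?_
  have he : Even (2 * i) := even_two_mul i
  have h3 : Continuous (fun y : ℕ → Bool => σ (ph1 σ y (2 * i))) :=
    (continuous_of_discreteTopology (f := σ)).comp (h (2 * i))
  refine h3.congr fun y => ?_
  simp only [ev, pl1, if_pos he]

/-- the history of the play where the first player plays `z` and the second follows `τ` -/
def ph2 (τ : List Bool → Bool) (z : ℕ → Bool) : ℕ → List Bool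
  | 0 => []
  | n + 1 => (if Even n then z (n / 2) else τ (ph2 τ z n)) :: ph2 τ z n

/-- the play -/
def pl2 (τ : List Bool → Bool) (z : ℕ → Bool) (n : ℕ) : Bool :=
  if Even n then z (n / 2) else τ (ph2 τ z n)

theorem hist_pl2 (τ : List Bool → Bool) (z : ℕ → Bool) (n : ℕ) :
    hist (pl2 τ z) n = ph2 τ z n := by
  induction n with
  | zero => rfl
  | succ n ih => rw [hist_succ, ih]; rfl

theorem ev_pl2 (τ : List Bool → Bool) (z : ℕ → Bool) : ev (pl2 τ z) = z := by
  funext i
  have h : Even (2 * i) := even_two_mul i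
  simp only [ev, pl2, if_pos h]
  congr 1
  omega

theorem ph2_congr (τ : List Bool → Bool) (z z' : ℕ → Bool) (n : ℕ)
    (h : ∀ i, 2 * i < n → z i = z' i) : ph2 τ z n = ph2 τ z' n := by
  induction n with
  | zero => rfl
  | succ n ih =>
    have h1 := ih fun i hi => h i (by omega)
    simp only [ph2, h1]
    by_cases he : Even n
    · simp only [if_pos he]
      obtain ⟨m, hm⟩ := he
      rw [h (n / 2) (by omega)]
    · simp only [if_neg he]

/-- the recursion theorem for the responses to the initial segments -/
theorem recur (R : Code → Str → Bool) : ∃ t : ℕ → Bool, ∀ z : ℕ → Bool, le t z →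
    ∃ c : Code, Red c z (fun n => R c (seg z (n + 1))) := by
  obtain ⟨N1a, N1b, N1c⟩ := N1
  let t : ℕ → Bool := fun k => match (decode k : Option (Code × Str)) with
    | some q => R q.1 q.2
    | none => false
  have ht : ∀ c x, t (encode (c, x)) = R c x := by
    intro c x
    simp only [t, encodek]
  refine ⟨t, fun z hz => ?_⟩
  obtain ⟨i, hi⟩ := (le_iff z t).1 hz
  let f : Code → ℕ → Part ℕ := fun c p => (Part.ofOption (decode (α := ℕ × Str) p)).bind fun q =>
    Part.ofOption (bif decide (q.1 < q.2.length) then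
      nxtv i q.2 (encode (c, q.2.take (q.1 + 1))) else none)
  have hf : Partrec₂ f := by
    have h1 : Computable (fun y : (Code × ℕ) × (ℕ × Str) => decide (y.2.1 < y.2.2.length)) :=
      (Primrec.nat_lt.decide.to_comp).comp (Computable.fst.comp Computable.snd)
        (Computable.list_length.comp (Computable.snd.comp Computable.snd))
    have h2 : Computable (fun y : (Code × ℕ) × (ℕ × Str) => y.2.2.take (y.2.1 + 1)) :=
      Primrec.list_take.to_comp.comp (Computable.succ.comp (Computable.fst.comp Computable.snd))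
        (Computable.snd.comp Computable.snd)
    have h3 : Computable (fun y : (Code × ℕ) × (ℕ × Str) =>
        nxtv i y.2.2 (encode (y.1.1, y.2.2.take (y.2.1 + 1)))) :=
      (c1.1).comp (f := fun p : Code × Str × ℕ => nxtv p.1 p.2.1 p.2.2)
        (g := fun y : (Code × ℕ) × (ℕ × Str) => (i, y.2.2,
          encode (y.1.1, y.2.2.take (y.2.1 + 1))))
        ((Computable.const i).pair ((Computable.snd.comp Computable.snd).pair
          (Computable.encode.comp ((Computable.fst.comp Computable.fst).pair h2))))
    have h4 : Partrec (fun p : Code × ℕ => Part.ofOption (decode (α := ℕ × Str) p.2)) :=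
      Computable.ofOption (Computable.decode.comp Computable.snd)
    have h5 : Partrec₂ (fun (p : Code × ℕ) (q : ℕ × Str) =>
        Part.ofOption (bif decide (q.1 < q.2.length) then
          nxtv i q.2 (encode (p.1, q.2.take (q.1 + 1))) else none)) :=
      Computable.ofOption (Computable.cond h1 h3 (Computable.const none))
    exact Partrec.bind h4 h5
  obtain ⟨c, hc⟩ := Nat.Partrec.Code.fixed_point₂ hf
  have hcf : ∀ n σ, c.eval (encode (n, σ)) = Part.ofOption (bif decide (n < σ.length) then
      nxtv i σ (encode (c, σ.take (n + 1))) else none) := by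
    intro n σ
    rw [hc]
    simp only [f, encodek]
    simp
  refine ⟨c, fun n v => ?_⟩
  have hi' := red_nxtv hi (encode (c, seg z (n + 1))) v
  rw [ht] at hi'
  constructor
  · rintro ⟨s, hs⟩
    rw [hcf, seg_len] at hs
    by_cases hns : n < s
    · simp only [hns, decide_true, cond_true] at hs
      rw [take_seg' z (show n + 1 ≤ s by omega)] at hs
      exact hi'.1 ⟨s, by simpa using hs⟩
    · simp only [hns, decide_false, cond_false] at hs
      exact absurd hs (by simp)
  · intro hv
    obtain ⟨s, hs⟩ := hi'.2 hv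
    set s' := max s (n + 1) with hs'
    have h1 : (nxtv i (seg z s') (encode (c, seg z (n + 1)))).isSome = true :=
      N1a _ _ _ _ (G2_seg_le z (le_max_left _ _)) (by rw [hs]; rfl)
    obtain ⟨w, hw⟩ := Option.isSome_iff_exists.1 h1
    have h2 : w = v := by
      have h3 := (red_nxtv hi (encode (c, seg z (n + 1))) w).1 ⟨s', hw⟩
      rw [ht] at h3
      rw [h3, hv]
    refine ⟨s', ?_⟩
    have hns : n < s' := lt_of_lt_of_le (Nat.lt_succ_self n) (le_max_right _ _)
    rw [hcf, seg_len]
    simp only [hns, decide_true, cond_true]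
    rw [take_seg' z (show n + 1 ≤ s' from hns), hw, h2]
    simp

/-- A Borel set with members of cofinally many degrees has a closed subset of this kind. -/
theorem closed_sub {B : Set (ℕ → Bool)} (hB : Bor B) (hc : Cof B) :
    ∃ F' : Set (ℕ → Bool), F' ⊆ B ∧ Clo F' ∧ Cof F' := by
  rw [bor_iff] at hB
  let A : Code → Set (ℕ → Bool) := fun c => {p | ev p ∈ B ∧ Red c (ev p) (od p)}
  have hA : ∀ c, @MeasurableSet (ℕ → Bool) (borel (ℕ → Bool)) (A c) := by
    intro c
    change Bor (A c)
    rw [bor_iff]
    exact (meas_ev hB).inter (measurableSet_setOfPred.2 (meas_red meas_ev meas_od c))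
  by_cases h : ∃ (c : Code) (σ : List Bool → Bool), ∀ z : ℕ → Bool,
      (∀ n, Even n → z n = σ (hist z n)) → z ∈ A c
  · obtain ⟨c, σ, h⟩ := h
    have h1 : ∀ y, ev (pl1 σ y) ∈ B ∧ Red c (ev (pl1 σ y)) y := by
      intro y
      have h2 : pl1 σ y ∈ A c := h _ fun n hn => by
        rw [hist_pl1]
        simp only [pl1, if_pos hn]
      have h3 : ev (pl1 σ y) ∈ B ∧ Red c (ev (pl1 σ y)) (od (pl1 σ y)) := h2
      rw [od_pl1] at h3
      exact h3
    refine ⟨Set.range (fun y => ev (pl1 σ y)), ?_, ?_, ?_⟩
    · rintro _ ⟨y, rfl⟩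
      exact (h1 y).1
    · exact clo_of_closed (isCompact_range (cont_pl1 σ)).isClosed
    · intro w
      exact ⟨_, ⟨w, rfl⟩, (le_iff _ _).2 ⟨c, (h1 w).2⟩⟩
  · exfalso
    have h1 : ∀ c : Code, ∃ τ : List Bool → Bool, ∀ z : ℕ → Bool,
        (∀ n, ¬ Even n → z n = τ (hist z n)) → z ∉ A c := by
      intro c
      rcases borel_determinacy (hA c) with h2 | h2
      · exact (h ⟨c, h2⟩).elim
      · exact h2
    choose τ hτ using h1
    obtain ⟨t, ht⟩ := recur fun c s => τ c (ph2 (τ c) (fun i => s.getD i false)
      (2 * (s.length - 1) + 1))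
    obtain ⟨z, hzB, hz⟩ := hc t
    obtain ⟨c, hred⟩ := ht z hz
    refine hτ c (pl2 (τ c) z) ?_ ?_
    · intro n hn
      rw [hist_pl2]
      simp only [pl2, if_neg hn]
    · change ev (pl2 (τ c) z) ∈ B ∧ Red c (ev (pl2 (τ c) z)) (od (pl2 (τ c) z))
      rw [ev_pl2]
      refine ⟨hzB, ?_⟩
      have e : (fun n => τ c (ph2 (τ c) (fun i => (seg z (n + 1)).getD i false)
          (2 * ((seg z (n + 1)).length - 1) + 1))) = od (pl2 (τ c) z) := by
        funext n
        have hn : ¬ Even (2 * n + 1) := by grind
        simp only [od, pl2, if_neg hn, seg_len, Nat.add_sub_cancel]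
        congr 1
        refine ph2_congr _ _ _ _ fun i hi => ?_
        rw [seg_getD _ _ _ (by omega)]
      rw [e] at hred
      exact hred

end Pool.Agent.V7H66.BO
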