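import Pool.Agent.V7H66.BO.Det

/-!
Games with a bounded number of switches: one of the players has a winning strategy. If the second
player wins all of them, the operation is computable in its argument on a cone; if the first player
wins one of them, numbers of events can be coded.
-/

set_option autoImplicit false

namespace Pool.Agent.V7H66.BO

open Nat.Partrec (Code)
open Encodable
open Pool.Agent.H639.LU Pool.Agent.H869R3.FN Pool.Agent.R616.DI Pool.Agent.Y579.PP
open Pool.Agent.Helper446.Defs Pool.Agent.Helper446.Oracle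
open Q203.BD

/-- level `v` is reached in the play `y` of the second player -/
def lv (y : ℕ → Bool) (v : ℕ) : Prop := ∃ s, y (2 * Nat.pair v s + 1) = true

/-- `v` is the last level reached, among `0, …, k` -/
def Fn (k : ℕ) (y : ℕ → Bool) (v : ℕ) : Prop :=
  (0 < v → lv y v) ∧ ∀ v', v < v' → v' ≤ k → ¬ lv y v'

/-- the values of `a` after `v` switches -/
def Sv (a : ℕ → Bool) (L : List (ℕ × Bool)) (v : ℕ) : Prop :=
  ∀ (i : ℕ) (q : ℕ × Bool), L[i]? = some q → (v ≤ i → a q.1 = q.2) ∧ (i + 1 = v → a q.1 ≠ q.2)

/-- the payoff set -/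
def Pay (F : Set (ℕ → Bool)) (G : (ℕ → Bool) → ℕ → Bool) (e : Code) (L : List (ℕ × Bool)) :
    Set (ℕ → Bool) :=
  {p | ev p ∈ F ∧ Red e (ev p) (od p) ∧
    ∀ v ≤ L.length, Fn L.length (od p) v → Sv (G (ev p)) L v}

/-- the first player wins -/
def Win (F : Set (ℕ → Bool)) (G : (ℕ → Bool) → ℕ → Bool) (e : Code) (L : List (ℕ × Bool)) : Prop :=
  ∃ σ : List Bool → Bool, ∀ p : ℕ → Bool, (∀ n, Even n → p n = σ (hist p n)) → p ∈ Pay F G e L

theorem meas_Sv {G : (ℕ → Bool) → ℕ → Bool} (hG : Measurable G) (L : List (ℕ × Bool)) (v : ℕ) :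
    Measurable fun X => Sv (G X) L v := by
  unfold Sv
  refine Measurable.forall fun i => Measurable.forall fun q => Measurable.imp
    measurable_const (Measurable.and (Measurable.imp measurable_const ?_)
      (Measurable.imp measurable_const ?_))
  · exact meas_bit hG q.1 (fun b => b = q.2)
  · exact meas_bit hG q.1 (fun b => b ≠ q.2)

theorem meas_lv (v : ℕ) : Measurable fun y => lv y v := by
  unfold lv
  exact Measurable.exists fun s => meas_bit measurable_id _ (fun b => b = true)

theorem meas_Fn (k v : ℕ) : Measurable fun y => Fn k y v := by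
  unfold Fn
  refine Measurable.and (Measurable.imp measurable_const (meas_lv v))
    (Measurable.forall fun v' => Measurable.imp measurable_const
      (Measurable.imp measurable_const (Measurable.not (meas_lv v'))))

theorem meas_Pay {F : Set (ℕ → Bool)} (hF : MeasurableSet F) {G : (ℕ → Bool) → ℕ → Bool}
    (hG : Measurable G) (e : Code) (L : List (ℕ × Bool)) : MeasurableSet (Pay F G e L) := by
  unfold Pay
  refine measurableSet_setOfPred.2 (Measurable.and ?_ (Measurable.and ?_ ?_))
  · exact measurableSet_setOfPred.1 (meas_ev hF)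
  · exact meas_red meas_ev meas_od e
  · refine Measurable.forall fun v => Measurable.imp measurable_const (Measurable.imp ?_ ?_)
    · exact (meas_Fn L.length v).comp meas_od
    · exact (meas_Sv hG L v).comp meas_ev

/-- the recursion theorem with parameters -/
theorem recurP (R : ℕ → Code → Str → Bool) : ∃ t : ℕ → Bool, ∀ z : ℕ → Bool, le t z →
    ∃ E : ℕ → Code, (∀ p, Red (E p) z (fun n => R p (E p) (seg z (n + 1)))) ∧
      ∀ b, REIn (St z) (fun x : ℕ × ℕ => R x.1 (E x.1) (seg z (x.2 + 1)) = b) := by
  obtain ⟨N1a, N1b, N1c⟩ := N1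
  let t : ℕ → Bool := fun k => match (decode k : Option (ℕ × Code × Str)) with
    | some q => R q.1 q.2.1 q.2.2
    | none => false
  have ht : ∀ p c x, t (encode (p, c, x)) = R p c x := by
    intro p c x
    simp only [t, encodek]
  refine ⟨t, fun z hz => ?_⟩
  obtain ⟨i, hi⟩ := (le_iff z t).1 hz
  let f : Code → ℕ → Part ℕ := fun c x =>
    (Part.ofOption (decode (α := ℕ × Str) x.unpair.2)).bind fun q =>
      Part.ofOption (bif decide (q.1 < q.2.length) then
        nxtv i q.2 (encode (x.unpair.1, Code.curry c x.unpair.1, q.2.take (q.1 + 1))) else none)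
  have hcurry : Computable (fun y : Code × ℕ => Code.curry y.1 y.2) :=
    Nat.Partrec.Code.primrec₂_curry.to_comp
  have hf : Partrec₂ f := by
    have h1 : Computable (fun y : (Code × ℕ) × (ℕ × Str) => decide (y.2.1 < y.2.2.length)) :=
      (Primrec.nat_lt.decide.to_comp).comp (Computable.fst.comp Computable.snd)
        (Computable.list_length.comp (Computable.snd.comp Computable.snd))
    have h2 : Computable (fun y : (Code × ℕ) × (ℕ × Str) => y.2.2.take (y.2.1 + 1)) :=
      Primrec.list_take.to_comp.comp (Computable.succ.comp (Computable.fst.comp Computable.snd))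
        (Computable.snd.comp Computable.snd)
    have hu : Computable (fun y : (Code × ℕ) × (ℕ × Str) => y.1.2.unpair.1) :=
      Computable.fst.comp (Computable.unpair.comp (Computable.snd.comp Computable.fst))
    have hcu : Computable (fun y : (Code × ℕ) × (ℕ × Str) => Code.curry y.1.1 y.1.2.unpair.1) :=
      hcurry.comp (f := fun y : Code × ℕ => Code.curry y.1 y.2)
        (g := fun y : (Code × ℕ) × (ℕ × Str) => (y.1.1, y.1.2.unpair.1))
        ((Computable.fst.comp Computable.fst).pair hu)
    have h3 : Computable (fun y : (Code × ℕ) × (ℕ × Str) =>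
        nxtv i y.2.2 (encode (y.1.2.unpair.1, Code.curry y.1.1 y.1.2.unpair.1,
          y.2.2.take (y.2.1 + 1)))) :=
      (c1.1).comp (f := fun p : Code × Str × ℕ => nxtv p.1 p.2.1 p.2.2)
        (g := fun y : (Code × ℕ) × (ℕ × Str) => (i, y.2.2,
          encode (y.1.2.unpair.1, Code.curry y.1.1 y.1.2.unpair.1, y.2.2.take (y.2.1 + 1))))
        ((Computable.const i).pair ((Computable.snd.comp Computable.snd).pair
          (Computable.encode.comp (hu.pair (hcu.pair h2)))))
    have h4 : Partrec (fun p : Code × ℕ =>
        Part.ofOption (decode (α := ℕ × Str) p.2.unpair.2)) :=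
      Computable.ofOption (Computable.decode.comp
        (Computable.snd.comp (Computable.unpair.comp Computable.snd)))
    have h5 : Partrec₂ (fun (p : Code × ℕ) (q : ℕ × Str) =>
        Part.ofOption (bif decide (q.1 < q.2.length) then
          nxtv i q.2 (encode (p.2.unpair.1, Code.curry p.1 p.2.unpair.1, q.2.take (q.1 + 1)))
          else none)) :=
      Computable.ofOption (Computable.cond h1 h3 (Computable.const none))
    exact Partrec.bind h4 h5
  obtain ⟨c, hc⟩ := Nat.Partrec.Code.fixed_point₂ hf
  set E : ℕ → Code := fun p => Code.curry c p with hE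
  have hEc : Computable E := hcurry.comp (f := fun y : Code × ℕ => Code.curry y.1 y.2)
    (g := fun p : ℕ => (c, p)) ((Computable.const c).pair Computable.id)
  have hcf : ∀ p n σ, (E p).eval (encode (n, σ)) = Part.ofOption (bif decide (n < σ.length) then
      nxtv i σ (encode (p, E p, σ.take (n + 1))) else none) := by
    intro p n σ
    rw [hE, Nat.Partrec.Code.eval_curry, hc]
    simp only [f, Nat.unpair_pair, encodek]
    simp
  refine ⟨E, fun p n v => ?_, fun b => ?_⟩
  · have hi' := red_nxtv hi (encode (p, E p, seg z (n + 1))) v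
    rw [ht] at hi'
    constructor
    · rintro ⟨s, hs⟩
      rw [hcf, seg_len] at hs
      by_cases hns : n < s
      · simp only [hns, decide_true, cond_true] at hs
        rw [take_seg' z (show n + 1 ≤ s by omega)] at hs
        exact hi'.1 ⟨s, by simpa using hs⟩
      · simp only [hns, decide_false, cond_false] at hs
        exact absurd hs (by simp)
    · intro hv
      obtain ⟨s, hs⟩ := hi'.2 hv
      set s' := max s (n + 1) with hs'
      have h1 : (nxtv i (seg z s') (encode (p, E p, seg z (n + 1)))).isSome = true :=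
        N1a _ _ _ _ (G2_seg_le z (le_max_left _ _)) (by rw [hs]; rfl)
      obtain ⟨w, hw⟩ := Option.isSome_iff_exists.1 h1
      have h2 : w = v := by
        have h3 := (red_nxtv hi (encode (p, E p, seg z (n + 1))) w).1 ⟨s', hw⟩
        rw [ht] at h3
        rw [h3, hv]
      refine ⟨s', ?_⟩
      have hns : n < s' := lt_of_lt_of_le (Nat.lt_succ_self n) (le_max_right _ _)
      rw [hcf, seg_len]
      simp only [hns, decide_true, cond_true]
      rw [take_seg' z (show n + 1 ≤ s' from hns), hw, h2]
      simp
  · have hT : REIn (St z) (fun k => t k = b) := by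
      have h1 := turingReducible_iff.1 hz
      cases b with
      | true => exact h1.1
      | false =>
        refine h1.2.of_eq fun k => ?_
        change ¬ t k = true ↔ t k = false
        simp
    have hS : REIn (St z) (fun σ : Str => ∃ s, seg z s = σ) := by
      refine (K2 Str z _).2 ⟨fun σ x => x = σ, ?_, fun σ => Iff.rfl⟩
      exact Pool.Agent.Helper446.RE.eq Computable.snd Computable.fst
    have h2 : REIn (St z) (fun x : ℕ × ℕ => ∃ σ : Str, ((∃ s, seg z s = σ) ∧
        σ.length = x.2 + 1) ∧ t (encode (x.1, E x.1, σ)) = b) := by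
      refine REIn.ex (S := fun (x : ℕ × ℕ) (σ : Str) => ((∃ s, seg z s = σ) ∧
        σ.length = x.2 + 1) ∧ t (encode (x.1, E x.1, σ)) = b) (REIn.and (REIn.and ?_ ?_) ?_)
      · exact hS.comp Computable.snd
      · exact REIn.of_re (Pool.Agent.Helper446.RE.eq
          (Computable.list_length.comp Computable.snd)
          (Computable.succ.comp (Computable.snd.comp Computable.fst)))
      · exact REIn.comp (S := fun k => t k = b) hT
          (f := fun x : (ℕ × ℕ) × Str => encode (x.1.1, E x.1.1, x.2))
          (Computable.encode.comp ((Computable.fst.comp Computable.fst).pair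
            ((hEc.comp (Computable.fst.comp Computable.fst)).pair Computable.snd)))
    refine h2.of_eq fun x => ?_
    constructor
    · rintro ⟨σ, ⟨⟨s, rfl⟩, hs⟩, h3⟩
      rw [seg_len] at hs
      subst hs
      rwa [ht] at h3
    · intro h3
      exact ⟨seg z (x.2 + 1), ⟨⟨_, rfl⟩, seg_len _ _⟩, by rw [ht]; exact h3⟩

theorem getElem_app (A B : List (ℕ × Bool)) (x : ℕ × Bool) :
    (A ++ x :: B)[A.length]? = some x := by simp

/-- the dual of the cardinality lemma -/
theorem dual (Z : Set ℕ) (a : ℕ → Bool) (k : ℕ) (lev : List (ℕ × Bool) → ℕ → Prop)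
    (hlev : REIn Z (fun p : List (ℕ × Bool) × ℕ => lev p.1 p.2))
    (h : ∀ L, L.length = k → ∃ v ≤ k, ((0 < v → lev L v) ∧
      ∀ v', v < v' → v' ≤ k → ¬ lev L v') ∧ ¬ Sv a L v) (b : Bool) :
    REIn Z (fun n => a n = b) := by
  have key : ∀ m : ℕ, (∃ B : List (ℕ × Bool), B.length + m = k ∧ (∀ q ∈ B, a q.1 = q.2) ∧
      ∀ A : List (ℕ × Bool), A.length = m → ∃ v ≤ m, ((0 < v → lev (A ++ B) v) ∧
        ∀ v', v < v' → v' ≤ k → ¬ lev (A ++ B) v') ∧ ¬ Sv a (A ++ B) v) →
      REIn Z (fun n => a n = b) := by
    intro m
    induction m with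
    | zero =>
      rintro ⟨B, hl, hB, h1⟩
      obtain ⟨v, hv, -, h2⟩ := h1 [] rfl
      exfalso
      have hv0 : v = 0 := by omega
      subst hv0
      refine h2 fun i q hq => ⟨fun _ => hB q (List.mem_of_getElem? (by simpa using hq)),
        fun h3 => by omega⟩
    | succ m ih =>
      rintro ⟨B, hl, hB, h1⟩
      by_cases hall : ∀ q : ℕ × Bool, a q.1 = q.2 → ∃ A : List (ℕ × Bool), A.length = m ∧
          lev (A ++ q :: B) (m + 1)
      · have hC : REIn Z (fun q : ℕ × Bool => ∃ A : List (ℕ × Bool), A.length = m ∧
            lev (A ++ q :: B) (m + 1)) := by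
          refine REIn.ex (S := fun (q : ℕ × Bool) (A : List (ℕ × Bool)) => A.length = m ∧
            lev (A ++ q :: B) (m + 1)) (REIn.and ?_ ?_)
          · exact REIn.of_re (Pool.Agent.Helper446.RE.eq
              (Computable.list_length.comp Computable.snd) (Computable.const m))
          · refine REIn.comp (f := fun y : (ℕ × Bool) × List (ℕ × Bool) =>
              (y.2 ++ y.1 :: B, m + 1)) hlev ?_
            refine Computable.pair ?_ (Computable.const (m + 1))
            refine Computable.list_append.comp Computable.snd ?_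
            exact Computable.list_cons.comp Computable.fst (Computable.const B)
        refine (hC.comp (f := fun n : ℕ => (n, b)) (Computable.pair Computable.id
          (Computable.const b))).of_eq fun n => ⟨?_, fun h3 => hall (n, b) h3⟩
        rintro ⟨A, hA, hlv⟩
        have hlist : (A ++ [(n, b)]) ++ B = A ++ (n, b) :: B := by simp
        obtain ⟨v, hv, ⟨-, h3⟩, h4⟩ := h1 (A ++ [(n, b)]) (by simp [hA])
        rw [hlist] at h3 h4
        have hve : v = m + 1 := by
          by_contra hne
          exact h3 (m + 1) (by omega) (by omega) hlv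
        subst hve
        by_contra hab
        apply h4
        intro i q hq
        constructor
        · intro hi
          rw [List.getElem?_append_right (by omega)] at hq
          obtain ⟨j, hj⟩ : ∃ j, i - A.length = j + 1 := ⟨i - A.length - 1, by omega⟩
          rw [hj, List.getElem?_cons_succ] at hq
          exact hB q (List.mem_of_getElem? hq)
        · intro hi
          have hi' : i = A.length := by omega
          rw [hi', getElem_app] at hq
          have : q = (n, b) := (Option.some.inj hq).symm
          rw [this]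
          exact hab
      · push Not at hall
        obtain ⟨q, hq, hno⟩ := hall
        refine ih ⟨q :: B, by simp only [List.length_cons]; omega, ?_, ?_⟩
        · intro q' hq'
          rcases List.mem_cons.1 hq' with h' | h'
          · rw [h']; exact hq
          · exact hB q' h'
        · intro A hA
          have hlist : (A ++ [q]) ++ B = A ++ q :: B := by simp
          obtain ⟨v, hv, h3, h4⟩ := h1 (A ++ [q]) (by simp [hA])
          rw [hlist] at h3 h4
          refine ⟨v, ?_, h3, h4⟩
          by_contra hlt
          have hve : v = m + 1 := by omega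
          subst hve
          exact hno A hA (h3.1 (by omega))
  refine key k ⟨[], by simp, by simp, fun A hA => ?_⟩
  rw [List.append_nil]
  exact h A hA

/-- the dichotomy for the games -/
theorem game_dich {F : Set (ℕ → Bool)} (hF : MeasurableSet F) {G : (ℕ → Bool) → ℕ → Bool}
    (hG : Measurable G) (k : ℕ) :
    (∃ L : List (ℕ × Bool), L.length = k ∧ ∃ e : Code, Win F G e L) ∨
      ∃ t : ℕ → Bool, ∀ X ∈ F, le t X → le (G X) X := by
  by_cases hw : ∃ L : List (ℕ × Bool), L.length = k ∧ ∃ e : Code, Win F G e L
  · exact Or.inl hw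
  right
  have h1 : ∀ (L : List (ℕ × Bool)) (e : Code), ∃ τ : List Bool → Bool, L.length = k →
      ∀ p : ℕ → Bool, (∀ n, ¬ Even n → p n = τ (hist p n)) → p ∉ Pay F G e L := by
    intro L e
    by_cases hL : L.length = k
    · have hm : @MeasurableSet (ℕ → Bool) (borel (ℕ → Bool)) (Pay F G e L) := by
        change Bor (Pay F G e L)
        rw [bor_iff]
        exact meas_Pay hF hG e L
      rcases borel_determinacy hm with h2 | ⟨τ, hτ⟩
      · exact (hw ⟨L, hL, e, h2⟩).elim
      · exact ⟨τ, fun _ => hτ⟩
    · exact ⟨fun _ => false, fun h => absurd h hL⟩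
  choose τ hτ using h1
  obtain ⟨t, ht⟩ := recurP fun p c s =>
    match (decode p : Option (List (ℕ × Bool))) with
    | some L => τ L c (ph2 (τ L c) (fun i => s.getD i false) (2 * (s.length - 1) + 1))
    | none => false
  refine ⟨t, fun X hXF hX => ?_⟩
  obtain ⟨E, hE, hE2⟩ := ht X hX
  have e1 : ∀ L : List (ℕ × Bool), (fun n =>
      (match (decode (encode L) : Option (List (ℕ × Bool))) with
      | some L' => τ L' (E (encode L)) (ph2 (τ L' (E (encode L)))
          (fun i => (seg X (n + 1)).getD i false) (2 * ((seg X (n + 1)).length - 1) + 1))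
      | none => false)) = od (pl2 (τ L (E (encode L))) X) := by
    intro L
    funext n
    have hn : ¬ Even (2 * n + 1) := by grind
    simp only [encodek, od, pl2, if_neg hn, seg_len, Nat.add_sub_cancel]
    congr 1
    refine ph2_congr _ _ _ _ fun i hi => ?_
    rw [seg_getD _ _ _ (by omega)]
  set yL : List (ℕ × Bool) → ℕ → Bool := fun L => od (pl2 (τ L (E (encode L))) X) with hyL
  have hred : ∀ L, Red (E (encode L)) X (yL L) := by
    intro L
    have h2 := hE (encode L)
    rw [e1 L] at h2
    exact h2
  have hre : ∀ b, REIn (St X) (fun x : List (ℕ × Bool) × ℕ => yL x.1 x.2 = b) := by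
    intro b
    refine ((hE2 b).comp (f := fun x : List (ℕ × Bool) × ℕ => (encode x.1, x.2))
      (by fun_prop)).of_eq fun x => ?_
    have h2 := congrFun (e1 x.1) x.2
    change _ = yL x.1 x.2 at h2
    rw [← h2]
  have hlev : REIn (St X) (fun p : List (ℕ × Bool) × ℕ => lv (yL p.1) p.2) := by
    refine REIn.ex (S := fun (p : List (ℕ × Bool) × ℕ) (s : ℕ) =>
      yL p.1 (2 * Nat.pair p.2 s + 1) = true) ?_
    exact REIn.comp (f := fun y : (List (ℕ × Bool) × ℕ) × ℕ =>
      (y.1.1, 2 * Nat.pair y.1.2 y.2 + 1)) (hre true) (by fun_prop)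
  have hall : ∀ L : List (ℕ × Bool), L.length = k → ∃ v ≤ k, ((0 < v → lv (yL L) v) ∧
      ∀ v', v < v' → v' ≤ k → ¬ lv (yL L) v') ∧ ¬ Sv (G X) L v := by
    intro L hL
    have h2 := hτ L (E (encode L)) hL (pl2 (τ L (E (encode L))) X) (by
      intro n hn
      rw [hist_pl2]
      simp only [pl2, if_neg hn])
    have h3 : ¬ (ev (pl2 (τ L (E (encode L))) X) ∈ F ∧
        Red (E (encode L)) (ev (pl2 (τ L (E (encode L))) X))
          (od (pl2 (τ L (E (encode L))) X)) ∧
        ∀ v ≤ L.length, Fn L.length (od (pl2 (τ L (E (encode L))) X)) v →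
          Sv (G (ev (pl2 (τ L (E (encode L))) X))) L v) := h2
    rw [ev_pl2] at h3
    by_contra hcon
    push Not at hcon
    refine h3 ⟨hXF, hred L, fun v hv hfn => ?_⟩
    rw [hL] at hv hfn
    by_contra hS
    exact hS (hcon v hv ⟨hfn.1, hfn.2⟩)
  have hd := dual (St X) (G X) k (fun L v => lv (yL L) v) hlev hall
  have h4 := (K5 K2).2.2.1 X (fun n => G X n = true) (hd true)
    ((hd false).of_eq fun n => by simp)
  have h5 : ch (fun n => G X n = true) = G X := by
    funext n
    unfold ch
    simp
  rwa [h5] at h4

end Pool.Agent.V7H66.BO
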