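import Pool.Agent.V7H66.BO.Game

/-!
The local theorem: a winning strategy in the games with switches gives a coding of the jump.
-/

set_option autoImplicit false

namespace Pool.Agent.V7H66.BO

open Nat.Partrec (Code)
open Encodable
open Pool.Agent.H639.LU Pool.Agent.H869R3.FN Pool.Agent.R616.DI Pool.Agent.Y579.PP
open Pool.Agent.Helper446.Defs Pool.Agent.Helper446.Oracle
open Q203.BD

theorem seg_congr {A B : ℕ → Bool} {t : ℕ} (h : ∀ i < t, A i = B i) : seg A t = seg B t := by
  unfold seg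
  exact List.map_congr_left fun i hi => h i (List.mem_range.1 hi)

theorem ph1_congr (σ : List Bool → Bool) (y y' : ℕ → Bool) (n : ℕ)
    (h : ∀ i, 2 * i + 1 < n → y i = y' i) : ph1 σ y n = ph1 σ y' n := by
  induction n with
  | zero => rfl
  | succ n ih =>
    have h1 := ih fun i hi => h i (by omega)
    simp only [ph1, h1]
    by_cases he : Even n
    · simp only [if_pos he]
    · simp only [if_neg he]
      have h2 : n % 2 = 1 := Nat.odd_iff.1 (Nat.not_even_iff_odd.1 he)
      rw [h (n / 2) (by omega)]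

/-- the announced numbers of events -/
def mm (ee : List ℕ) (X : ℕ → Bool) : ℕ → Bool :=
  fun j => decide (j.unpair.1 ≤ cnt ee (seg X (j + 1)))

/-- the coding: the response of the strategy to `X` and the events -/
def Yf (σ : List Bool → Bool) (ee : List ℕ) (X : ℕ → Bool) : ℕ → Bool :=
  ev (pl1 σ (jn 0 X (mm ee X)))

theorem Yf_congr (σ : List Bool → Bool) (ee : List ℕ) {X X' : ℕ → Bool} {t : ℕ}
    (h : ∀ i < t, X i = X' i) : seg (Yf σ ee X) t = seg (Yf σ ee X') t := by
  refine seg_congr fun n hn => ?_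
  have he : Even (2 * n) := even_two_mul n
  simp only [Yf, ev, pl1, if_pos he]
  congr 1
  refine ph1_congr _ _ _ _ fun j hj => ?_
  unfold jn
  split_ifs with h1
  · exact h _ (by omega)
  · unfold mm
    rw [seg_congr (A := X) (B := X') fun i hi => h i (by omega)]

theorem lv_mm (ee : List ℕ) (X : ℕ → Bool) (v : ℕ) :
    lv (jn 0 X (mm ee X)) v ↔ v ≤ cntP (J X) ee := by
  obtain ⟨-, -, d3, d4, -⟩ := D2 N1 N2
  unfold lv
  constructor
  · rintro ⟨s, hs⟩
    rw [jn_odd] at hs
    unfold mm at hs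
    rw [decide_eq_true_iff, Nat.unpair_pair] at hs
    exact hs.trans (d3 ee X _)
  · intro hv
    obtain ⟨t, ht⟩ := d4 ee X
    refine ⟨t, ?_⟩
    rw [jn_odd]
    unfold mm
    rw [decide_eq_true_iff, Nat.unpair_pair, ht _ (by
      have := Nat.right_le_pair v t
      omega)]
    exact hv

theorem cntP_le (A : ℕ → Prop) (ee : List ℕ) : cntP A ee ≤ ee.length := by
  classical
  unfold cntP
  exact List.length_filter_le _ _

/-- what the coding achieves -/
theorem coding {F : Set (ℕ → Bool)} {G : (ℕ → Bool) → ℕ → Bool} {e : Code}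
    {L : List (ℕ × Bool)} {σ : List Bool → Bool}
    (hσ : ∀ p : ℕ → Bool, (∀ n, Even n → p n = σ (hist p n)) → p ∈ Pay F G e L)
    (ee : List ℕ) (hee : ee.length = L.length) (X : ℕ → Bool) :
    Yf σ ee X ∈ F ∧ Red e (Yf σ ee X) (jn 0 X (mm ee X)) ∧
      Sv (G (Yf σ ee X)) L (cntP (J X) ee) := by
  have h1 := hσ (pl1 σ (jn 0 X (mm ee X))) fun n hn => by
    rw [hist_pl1]
    simp only [pl1, if_pos hn]
  obtain ⟨h2, h3, h4⟩ := h1
  rw [od_pl1] at h3 h4
  refine ⟨h2, h3, h4 _ (hee ▸ cntP_le _ _) ⟨fun _ => (lv_mm ee X _).2 le_rfl, ?_⟩⟩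
  intro v' h5 _ h6
  rw [lv_mm] at h6
  omega

/-- the candidates for the number of events -/
def CandG (V : ℕ → Bool) (L : List (ℕ × Bool)) (Lr : List ℕ → Code → Prop) (ee : List ℕ)
    (v : ℕ) : Prop :=
  ∃ v₀ < L.length + 1, v = v₀ ∧ ∃ l : Code, Lr ee l ∧ ∀ q < L.length, v₀ ≤ q + 1 →
    Val l V (L.getD q (0, false)).1
      (if v₀ = q + 1 then (!(L.getD q (0, false)).2).toNat else (L.getD q (0, false)).2.toNat)

theorem all_fin {α : Type} [Primcodable α] {Z : Set ℕ} (P : ℕ → α → Prop)
    (h : ∀ q, REIn Z (P q)) (k : ℕ) : REIn Z (fun x => ∀ q < k, P q x) := by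
  induction k with
  | zero =>
    refine (REIn.of_re (S := fun _ : α => (0 : ℕ) = 0)
      (Pool.Agent.Helper446.RE.eq (Computable.const 0) (Computable.const 0))).of_eq fun x => ?_
    simp
  | succ k ih =>
    refine (REIn.and ih (h k)).of_eq fun x => ?_
    constructor
    · rintro ⟨h1, h2⟩ q hq
      rcases Nat.lt_succ_iff_lt_or_eq.1 hq with h3 | h3
      · exact h1 q h3
      · rw [h3]; exact h2
    · intro h1
      exact ⟨fun q hq => h1 q (by omega), h1 k (by omega)⟩

theorem ex_fin {α : Type} [Primcodable α] {Z : Set ℕ} (P : ℕ → α → Prop)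
    (h : ∀ q, REIn Z (P q)) (k : ℕ) : REIn Z (fun x => ∃ q < k, P q x) := by
  induction k with
  | zero =>
    refine (REIn.of_re (S := fun x : α => encode x = encode x + 1)
      (Pool.Agent.Helper446.RE.eq (by fun_prop) (by fun_prop))).of_eq fun x => ?_
    simp
  | succ k ih =>
    refine (REIn.or ih (h k)).of_eq fun x => ?_
    constructor
    · rintro (⟨q, hq, h1⟩ | h1)
      · exact ⟨q, by omega, h1⟩
      · exact ⟨k, by omega, h1⟩
    · rintro ⟨q, hq, h1⟩
      rcases Nat.lt_succ_iff_lt_or_eq.1 hq with h3 | h3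
      · exact Or.inl ⟨q, h3, h1⟩
      · exact Or.inr (h3 ▸ h1)

theorem CandG_re (V : ℕ → Bool) (L : List (ℕ × Bool)) (Lr : List ℕ → Code → Prop)
    (hLr : REIn (St V) (fun p : List ℕ × Code => Lr p.1 p.2)) :
    REIn (St V) (fun p : List ℕ × ℕ => CandG V L Lr p.1 p.2) := by
  have hval := K6 K2 c1 V
  unfold CandG
  refine ex_fin (fun (v₀ : ℕ) (p : List ℕ × ℕ) => p.2 = v₀ ∧ ∃ l : Code, Lr p.1 l ∧
    ∀ q < L.length, v₀ ≤ q + 1 → Val l V (L.getD q (0, false)).1
      (if v₀ = q + 1 then (!(L.getD q (0, false)).2).toNat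
        else (L.getD q (0, false)).2.toNat)) (fun v₀ => ?_) (L.length + 1)
  refine REIn.and (REIn.of_re (Pool.Agent.Helper446.RE.eq Computable.snd
    (Computable.const v₀))) ?_
  refine REIn.ex (S := fun (p : List ℕ × ℕ) (l : Code) => Lr p.1 l ∧
    ∀ q < L.length, v₀ ≤ q + 1 → Val l V (L.getD q (0, false)).1
      (if v₀ = q + 1 then (!(L.getD q (0, false)).2).toNat
        else (L.getD q (0, false)).2.toNat)) (REIn.and ?_ ?_)
  · exact hLr.comp (f := fun x : (List ℕ × ℕ) × Code => (x.1.1, x.2)) (by fun_prop)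
  · refine all_fin (fun (q : ℕ) (x : (List ℕ × ℕ) × Code) => v₀ ≤ q + 1 →
      Val x.2 V (L.getD q (0, false)).1
        (if v₀ = q + 1 then (!(L.getD q (0, false)).2).toNat
          else (L.getD q (0, false)).2.toNat)) (fun q => ?_) L.length
    by_cases hq : v₀ ≤ q + 1
    · simp only [hq, true_imp_iff]
      exact hval.comp (f := fun x : (List ℕ × ℕ) × Code => (x.2, (L.getD q (0, false)).1,
        (if v₀ = q + 1 then (!(L.getD q (0, false)).2).toNat
          else (L.getD q (0, false)).2.toNat)))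
        (Computable.snd.pair ((Computable.const _).pair (Computable.const _)))
    · simp only [hq, false_imp_iff]
      refine (REIn.of_re (S := fun _ : (List ℕ × ℕ) × Code => (0 : ℕ) = 0)
        (Pool.Agent.Helper446.RE.eq (Computable.const 0) (Computable.const 0))).of_eq fun x => ?_
      simp

theorem CandG_few (V : ℕ → Bool) (L : List (ℕ × Bool)) (Lr : List ℕ → Code → Prop)
    (ee : List ℕ) (M : Finset Code) (hM : M.card ≤ L.length) (hsub : ∀ l, Lr ee l → l ∈ M) :
    ∃ v ≤ L.length, ¬ CandG V L Lr ee v := by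
  by_contra hcon
  push Not at hcon
  have hV := (V1 N1).1
  have hcon' : ∀ v ≤ L.length, ∃ l : Code, Lr ee l ∧ ∀ q < L.length, v ≤ q + 1 →
      Val l V (L.getD q (0, false)).1
        (if v = q + 1 then (!(L.getD q (0, false)).2).toNat
          else (L.getD q (0, false)).2.toNat) := by
    intro v hv
    obtain ⟨v₀, -, rfl, h⟩ := hcon v hv
    exact h
  choose! l hl using hcon'
  have hinj : Set.InjOn l (Finset.range (L.length + 1) : Set ℕ) := by
    have key : ∀ v v' : ℕ, v < v' → v' ≤ L.length → l v ≠ l v' := by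
      intro v v' hlt hv' heq
      have e : v' - 1 + 1 = v' := by omega
      have h1 := (hl v (by omega)).2 (v' - 1) (by omega) (by omega)
      have h2 := (hl v' hv').2 (v' - 1) (by omega) (by omega)
      rw [← heq] at h2
      rw [if_neg (by omega)] at h1
      rw [if_pos e.symm] at h2
      have h3 := hV _ _ _ _ _ h1 h2
      revert h3
      cases (L.getD (v' - 1) (0, false)).2 <;> simp
    intro a ha b hb hab
    simp only [Finset.coe_range, Set.mem_Iio] at ha hb
    rcases lt_trichotomy a b with h | h | h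
    · exact absurd hab (key a b h (by omega))
    · exact h
    · exact absurd hab.symm (key b a h (by omega))
  have hcard : (Finset.range (L.length + 1)).card ≤ M.card := by
    refine Finset.card_le_card_of_injOn l ?_ hinj
    intro v hv
    simp only [Finset.coe_range, Set.mem_Iio] at hv
    exact hsub _ (hl v (by omega)).1
  rw [Finset.card_range] at hcard
  omega

/-- the join with a computable part -/
theorem join_le' {ζ X Xs : ℕ → Bool} (h0 : ∀ n, Xs (2 * n) = ζ n) (h1 : ∀ n, Xs (2 * n + 1) = X n)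
    (h : le ζ X) : le Xs X := join_le h0 h1 h (le_refl' X)

/-- the local theorem -/
theorem localG {F : Set (ℕ → Bool)} {G : (ℕ → Bool) → ℕ → Bool} {k : ℕ}
    (hw : ∃ L : List (ℕ × Bool), L.length = k ∧ ∃ e : Code, Win F G e L) :
    ∃ z₁ : ℕ → Bool, ∀ X, le z₁ X → ∀ V : ℕ → Bool, le X V → ∀ e : Code,
      (∀ i j : Code, {l : Code | W e V (encode (i, j, l))}.encard ≤ k) →
      (∀ (i j : Code) (Y : ℕ → Bool), Y ∈ F → Red i X Y → Red j Y X →
        ∃ l : Code, W e V (encode (i, j, l)) ∧ Red l V (G Y)) →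
      le (ch (J X)) V := by
  classical
  obtain ⟨L, rfl, e₀, σ, hσ⟩ := hw
  have h := allP
  obtain ⟨κ, hκ, hκ'⟩ := K7
  obtain ⟨fJ, hfJ, hfJ'⟩ := K9
  obtain ⟨pf1, hpf1⟩ := red_fst
  have hpad : ∀ (X : ℕ → Bool) (t : ℕ), ∀ i < t, (fun i => (seg X t).getD i false) i = X i :=
    fun X t i hi => seg_getD X t i hi
  set Yp : List ℕ → Str → Str := fun ee x =>
    seg (Yf σ ee (fun i => x.getD i false)) x.length with hYp
  have hlen : ∀ ee x, (Yp ee x).length = x.length := fun ee x => seg_len _ _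
  have hseg : ∀ ee X t, Yp ee (seg X t) = seg (Yf σ ee X) t := by
    intro ee X t
    simp only [hYp, seg_len]
    exact Yf_congr σ ee (hpad X t)
  have hY1 : ∀ ee x b, Yp ee x <+: Yp ee (x ++ [b]) := by
    intro ee x b
    have h1 : Yp ee x = seg (Yf σ ee (fun i => (x ++ [b]).getD i false)) x.length := by
      refine Yf_congr σ ee fun i hi => ?_
      simp only [List.getD_eq_getElem?_getD]
      rw [List.getElem?_append_left hi]
    rw [h1]
    have h2 : Yp ee (x ++ [b]) =
        seg (Yf σ ee (fun i => (x ++ [b]).getD i false)) (x.length + 1) := by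
      simp only [hYp, List.length_append, List.length_singleton]
    rw [h2]
    exact G2_seg_le _ (Nat.le_succ _)
  obtain ⟨ζ, hζ⟩ := h.I1 h.K1 Yp hY1 (fun ee x => (hlen ee x).ge)
  choose i hi using hζ
  set j : List ℕ → Code := fun _ => κ (e₀, pf1) with hjdef
  refine ⟨tab ζ i j, fun X hX V hV e hcard hred => ?_⟩
  -- the join
  obtain ⟨Xs, hXs0, hXs1⟩ := joinEven ζ X
  have hζX : le ζ X := h.K4.2.1 _ _ _ (h.K4.2.2.2 (tab ζ i j) ζ
    (fun n => encode ((2, [], Code.zero, n) : ℕ × List ℕ × Code × ℕ)) (by fun_prop)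
    (fun n => by rw [tab_z])) hX
  have hXXs : le X Xs := h.K4.2.2.2 Xs X (fun n => 2 * n + 1) (by fun_prop)
    (fun n => by rw [hXs1])
  have hXsX : le Xs X := join_le' hXs0 hXs1 hζX
  obtain ⟨a, ha⟩ := (h.K3 h.K2 X Xs).1 hXsX
  obtain ⟨b, hb⟩ := (h.K3 h.K2 Xs X).1 hXXs
  -- reductions to `V`
  have htV : REIn (St V) (fun n => n ∈ St (tab ζ i j)) :=
    (turingReducible_iff.1 (h.K4.2.1 _ _ _ hX hV)).1
  have hgi : REIn (St V) (fun p : List ℕ × Code => p.2 = i p.1) := by
    have h3 : REIn (St V) (fun p : List ℕ × Code =>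
        encode ((0, p.1, p.2, 0) : ℕ × List ℕ × Code × ℕ) ∈ St (tab ζ i j)) :=
      REIn.comp (S := fun n => n ∈ St (tab ζ i j)) htV (by fun_prop)
    refine h3.of_eq fun p => ?_
    change tab ζ i j _ = true ↔ _
    rw [tab_i]
  have hgj : REIn (St V) (fun p : List ℕ × Code => p.2 = j p.1) := by
    have h3 : REIn (St V) (fun p : List ℕ × Code =>
        encode ((1, p.1, p.2, 0) : ℕ × List ℕ × Code × ℕ) ∈ St (tab ζ i j)) :=
      REIn.comp (S := fun n => n ∈ St (tab ζ i j)) htV (by fun_prop)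
    refine h3.of_eq fun p => ?_
    change tab ζ i j _ = true ↔ _
    rw [tab_j]
  set Lr : List ℕ → Code → Prop := fun ee l =>
    W e V (encode (κ (a, i ee), κ (j ee, b), l)) with hLrdef
  have hLr : REIn (St V) (fun p : List ℕ × Code => Lr p.1 p.2) := by
    have hW : REIn (St V) (W e V) := (h.K5 h.K2).1 e V
    have h3 : REIn (St V) (fun p : List ℕ × Code => ∃ q : Code × Code,
        (q.1 = i p.1 ∧ q.2 = j p.1) ∧ W e V (encode (κ (a, q.1), κ (q.2, b), p.2))) := by
      refine REIn.ex (S := fun (p : List ℕ × Code) (q : Code × Code) =>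
        (q.1 = i p.1 ∧ q.2 = j p.1) ∧ W e V (encode (κ (a, q.1), κ (q.2, b), p.2)))
        (REIn.and (REIn.and ?_ ?_) ?_)
      · exact hgi.comp (f := fun x : (List ℕ × Code) × (Code × Code) => (x.1.1, x.2.1))
          (by fun_prop)
      · exact hgj.comp (f := fun x : (List ℕ × Code) × (Code × Code) => (x.1.1, x.2.2))
          (by fun_prop)
      · refine REIn.comp (S := W e V)
          (f := fun x : (List ℕ × Code) × (Code × Code) =>
            encode (κ (a, x.2.1), κ (x.2.2, b), x.1.2)) hW ?_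
        have hk1 : Computable (fun x : (List ℕ × Code) × (Code × Code) => κ (a, x.2.1)) :=
          hκ.comp (by fun_prop)
        have hk2 : Computable (fun x : (List ℕ × Code) × (Code × Code) => κ (x.2.2, b)) :=
          hκ.comp (by fun_prop)
        exact Computable.encode.comp (hk1.pair (hk2.pair (by fun_prop)))
    refine h3.of_eq fun p => ?_
    constructor
    · rintro ⟨q, ⟨h4, h5⟩, h6⟩
      rw [h4, h5] at h6
      exact h6
    · intro h6
      exact ⟨(i p.1, j p.1), ⟨rfl, rfl⟩, h6⟩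
  have hE := CandG_re V L Lr hLr
  have hJXs : REIn (St V) (J Xs) :=
    h.K4.1 Xs V (h.K4.2.1 _ _ _ hXsX hV) _ ((h.K5 h.K2).2.1 Xs)
  have hJX : REIn (St V) (J X) := h.K4.1 X V hV _ ((h.K5 h.K2).2.1 X)
  have hnJ : REIn (St V) (fun n => ¬ J Xs n) := by
    refine h.R1 (St V) (J Xs) hJXs (CandG V L Lr) hE L.length ?_ ?_
    · intro ee hee
      obtain ⟨hYF, hrY, hSv⟩ := coding hσ ee hee Xs
      set Y := Yf σ ee Xs with hYdef
      have hri : Red (i ee) Xs Y := hi ee Xs Y hXs0 fun t => by
        rw [hlen, seg_len, hseg]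
      have hrj : Red (j ee) Y Xs := hκ' _ _ _ _ _ hrY (hpf1 _ _)
      obtain ⟨l, hl, hlr⟩ := hred (κ (a, i ee)) (κ (j ee, b)) Y hYF (hκ' _ _ _ _ _ ha hri)
        (hκ' _ _ _ _ _ hrj hb)
      have hc := cntP_le (J Xs) ee
      refine ⟨cntP (J Xs) ee, by omega, rfl, l, hl, fun q hq hqv => ?_⟩
      have h4 := (h.V1 h.N1).2 l V (G Y) (L.getD q (0, false)).1 hlr
      have h5 : L[q]? = some (L.getD q (0, false)) := by
        rw [List.getD_eq_getElem?_getD, List.getElem?_eq_getElem hq]
        rfl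
      obtain ⟨h6, h7⟩ := hSv q _ h5
      by_cases h8 : cntP (J Xs) ee = q + 1
      · rw [if_pos h8]
        have h9 := h7 h8.symm
        have h10 : G Y (L.getD q (0, false)).1 = !(L.getD q (0, false)).2 := by
          revert h9
          cases G Y (L.getD q (0, false)).1 <;> cases (L.getD q (0, false)).2 <;> simp
        rw [← h10]
        exact h4
      · rw [if_neg h8, ← h6 (by omega)]
        exact h4
    · intro ee hee
      have h4 := hcard (κ (a, i ee)) (κ (j ee, b))
      have hfin : {l : Code | W e V (encode (κ (a, i ee), κ (j ee, b), l))}.Finite :=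
        Set.finite_of_encard_le_coe h4
      refine CandG_few V L Lr ee hfin.toFinset ?_ ?_
      · rw [hfin.encard_eq_coe_toFinset_card] at h4
        exact_mod_cast h4
      · intro l hl
        rw [Set.Finite.mem_toFinset]
        exact hl
  have hnJX : REIn (St V) (fun n => ¬ J X n) := by
    refine (hnJ.comp hfJ).of_eq fun n => ?_
    rw [hfJ' X Xs hXs1]
  exact (h.K5 h.K2).2.2.1 V (J X) hJX hnJX

end Pool.Agent.V7H66.BO
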