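import Pool.Agent.V7H66.BO.Loc

/-!
Borel operations on Borel sets of oracles: the consequences of the local theorem.
-/

set_option autoImplicit false

namespace Pool.Agent.V7H66.BO

open Nat.Partrec (Code)
open Encodable
open Pool.Agent.H639.LU Pool.Agent.H869R3.FN Pool.Agent.R616.DI Pool.Agent.Y579.PP
open Pool.Agent.Helper446.Defs Pool.Agent.Helper446.Oracle

/-- the restriction of the operation `G` to `F` is Borel -/
def BorOn (F : Set (ℕ → Bool)) (G : (ℕ → Bool) → ℕ → Bool) : Prop :=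
  ∀ n : ℕ, Bor {X : ℕ → Bool | X ∈ F ∧ G X n = true}

/-- the extension by zero -/
noncomputable def exG (F : Set (ℕ → Bool)) (G : (ℕ → Bool) → ℕ → Bool) (X : ℕ → Bool) : ℕ → Bool :=
  ch (fun n => X ∈ F ∧ G X n = true)

theorem exG_eq {F : Set (ℕ → Bool)} {G : (ℕ → Bool) → ℕ → Bool} {X : ℕ → Bool} (hX : X ∈ F) :
    exG F G X = G X := by
  funext n
  simp [exG, ch, hX]

theorem meas_dec {α : Type*} [MeasurableSpace α] {P : α → ℕ → Prop} (h : ∀ n, Measurable fun a => P a n) :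
    Measurable fun a => ch (P a) := by
  classical
  refine measurable_pi_lambda _ fun n => ?_
  have h1 : Measurable (fun q : Prop => decide q) := measurable_from_top
  exact h1.comp (h n)

theorem exG_meas {F : Set (ℕ → Bool)} {G : (ℕ → Bool) → ℕ → Bool} (h : BorOn F G) :
    Measurable (exG F G) := by
  exact meas_dec fun n => measurableSet_setOfPred.1 ((bor_iff _).1 (h n))

theorem borOn_sub {F F' : Set (ℕ → Bool)} {G : (ℕ → Bool) → ℕ → Bool} (h : BorOn F G)
    (hF' : Bor F') (hs : F' ⊆ F) : BorOn F' G := by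
  intro n
  rw [bor_iff] at hF' ⊢
  have h1 := (bor_iff _).1 (h n)
  have h2 : {X : ℕ → Bool | X ∈ F' ∧ G X n = true} =
      F' ∩ {X : ℕ → Bool | X ∈ F ∧ G X n = true} := by
    ext X
    exact ⟨fun hX => ⟨hX.1, hs hX.1, hX.2⟩, fun hX => ⟨hX.1, hX.2.2⟩⟩
  rw [h2]
  exact hF'.inter h1

theorem cof_mono {A B : Set (ℕ → Bool)} (h : A ⊆ B) (hA : Cof A) : Cof B := by
  intro z
  obtain ⟨X, hX, hz⟩ := hA z
  exact ⟨X, h hX, hz⟩

theorem not_cof {A : Set (ℕ → Bool)} (h : ¬ Cof A) : ∃ z : ℕ → Bool, ∀ X ∈ A, ¬ le z X := by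
  unfold Cof at h
  push Not at h
  exact h

theorem join_enc {ι : Type} [Encodable ι] (z : ι → ℕ → Bool) :
    ∃ y : ℕ → Bool, ∀ i, le (z i) y := by
  refine ⟨muN (fun m => match (decode m : Option ι) with
    | some i => z i
    | none => fun _ => false), fun i => ?_⟩
  have h := le_muN (fun m => match (decode m : Option ι) with
    | some i => z i
    | none => fun _ => false) (encode i)
  simp only [encodek] at h
  exact h

theorem cof_union {ι : Type} [Encodable ι] {A : Set (ℕ → Bool)} (hA : Cof A)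
    (B : ι → Set (ℕ → Bool)) (h : ∀ X ∈ A, ∃ i, X ∈ B i) : ∃ i, Cof (B i) := by
  by_contra hno
  push Not at hno
  choose z hz using fun i => not_cof (hno i)
  obtain ⟨y, hy⟩ := join_enc z
  obtain ⟨X, hX, hyX⟩ := hA y
  obtain ⟨i, hi⟩ := h X hX
  exact hz i X hi (le_trans' (hy i) hyX)

theorem meas_le {α : Type*} [MeasurableSpace α] {f g : α → ℕ → Bool} (hf : Measurable f)
    (hg : Measurable g) : Measurable fun a => le (g a) (f a) := by
  simp only [le_iff]
  exact Measurable.exists fun c => meas_red hf hg c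

theorem meas_W (r : Code) : Measurable fun X : ℕ → Bool => ch (W r X) := by
  refine meas_dec fun n => ?_
  unfold W
  exact Measurable.exists fun s => meas_seg' measurable_id s
    (fun σ => (r.eval (encode (n, σ))).Dom)

theorem meas_J : Measurable fun X : ℕ → Bool => ch (J X) := by
  refine meas_dec fun p => ?_
  unfold J W
  exact Measurable.exists fun s => meas_seg' measurable_id s
    (fun σ => ((Denumerable.ofNat Code p.unpair.1).eval (encode (p.unpair.2, σ))).Dom)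

theorem meas_jn {α : Type*} [MeasurableSpace α] {f g : α → ℕ → Bool} (hf : Measurable f)
    (hg : Measurable g) : Measurable fun a => jn 0 (f a) (g a) := by
  refine measurable_pi_lambda _ fun n => ?_
  unfold jn
  by_cases h : n % 2 = 0 % 2
  · simp only [if_pos h]; exact (measurable_pi_apply _).comp hf
  · simp only [if_neg h]; exact (measurable_pi_apply _).comp hg

/-- the set of arguments where the operation is not trivial -/
theorem bor_nt {F : Set (ℕ → Bool)} {G : (ℕ → Bool) → ℕ → Bool} (hF : Bor F) (hG : BorOn F G) :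
    Bor {X | X ∈ F ∧ ¬ le (G X) X} := by
  rw [bor_iff] at hF ⊢
  have h1 : {X | X ∈ F ∧ ¬ le (G X) X} = {X | X ∈ F ∧ ¬ le (exG F G X) X} := by
    ext X
    constructor
    · rintro ⟨h1, h2⟩
      exact ⟨h1, by rw [exG_eq h1]; exact h2⟩
    · rintro ⟨h1, h2⟩
      exact ⟨h1, by rw [exG_eq h1] at h2; exact h2⟩
  rw [h1]
  exact measurableSet_setOfPred.2 (Measurable.and (measurableSet_setOfPred.1 hF)
    (Measurable.not (meas_le measurable_id (exG_meas hG))))

theorem bor_sol {F : Set (ℕ → Bool)} {G : (ℕ → Bool) → ℕ → Bool} (hF : Bor F) (hG : BorOn F G) :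
    Bor {X | X ∈ F ∧ ¬ le (G X) X ∧ ¬ le (ch (J X)) (jn 0 X (G X))} := by
  rw [bor_iff] at hF ⊢
  have h1 : {X | X ∈ F ∧ ¬ le (G X) X ∧ ¬ le (ch (J X)) (jn 0 X (G X))} =
      {X | X ∈ F ∧ ¬ le (exG F G X) X ∧ ¬ le (ch (J X)) (jn 0 X (exG F G X))} := by
    ext X
    constructor
    · rintro ⟨h1, h2⟩
      exact ⟨h1, by rw [exG_eq h1]; exact h2⟩
    · rintro ⟨h1, h2⟩
      exact ⟨h1, by rw [exG_eq h1] at h2; exact h2⟩
  rw [h1]
  exact measurableSet_setOfPred.2 (Measurable.and (measurableSet_setOfPred.1 hF)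
    (Measurable.and (Measurable.not (meas_le measurable_id (exG_meas hG)))
      (Measurable.not (meas_le (meas_jn measurable_id (exG_meas hG)) meas_J))))

/-- the local form -/
theorem local_form {F : Set (ℕ → Bool)} {G : (ℕ → Bool) → ℕ → Bool} (hF : Bor F)
    (hG : BorOn F G) (hnt : Cof {X | X ∈ F ∧ ¬ le (G X) X}) :
    ∃ z₁ : ℕ → Bool, ∀ X, le z₁ X → ∀ V : ℕ → Bool, le X V → ∀ (k : ℕ) (e : Code),
      (∀ i j : Code, {l : Code | W e V (encode (i, j, l))}.encard ≤ k) →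
      (∀ i j : Code, ∀ Y ∈ F, Red i X Y → Red j Y X →
        ∃ l : Code, W e V (encode (i, j, l)) ∧ Red l V (G Y)) →
      le (ch (J X)) V := by
  set F₁ : Set (ℕ → Bool) := {X | X ∈ F ∧ ¬ le (G X) X} with hF₁
  have hb : MeasurableSet F₁ := (bor_iff _).1 (bor_nt hF hG)
  have h1 : ∀ k : ℕ, ∃ z₁ : ℕ → Bool, ∀ X, le z₁ X → ∀ V : ℕ → Bool, le X V → ∀ e : Code,
      (∀ i j : Code, {l : Code | W e V (encode (i, j, l))}.encard ≤ k) →
      (∀ (i j : Code) (Y : ℕ → Bool), Y ∈ F₁ → Red i X Y → Red j Y X →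
        ∃ l : Code, W e V (encode (i, j, l)) ∧ Red l V (exG F G Y)) →
      le (ch (J X)) V := by
    intro k
    rcases game_dich hb (exG_meas hG) k with h2 | ⟨t, ht⟩
    · exact localG h2
    · exfalso
      obtain ⟨X, hX, htX⟩ := hnt t
      have h3 := ht X hX htX
      rw [exG_eq hX.1] at h3
      exact hX.2 h3
  choose z hz using h1
  obtain ⟨y, hy⟩ := join_enc z
  refine ⟨y, fun X hX V hV k e hc hr => hz k X (le_trans' (hy k) hX) V hV e hc ?_⟩
  intro i j Y hY h2 h3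
  obtain ⟨l, h4, h5⟩ := hr i j Y hY.1 h2 h3
  exact ⟨l, h4, by rw [exG_eq hY.1]; exact h5⟩

/-- arbitrary operations above a nontrivial Borel operation -/
theorem above_borel {F : Set (ℕ → Bool)} {G : (ℕ → Bool) → ℕ → Bool} (hF : Bor F)
    (hG : BorOn F G) (hnt : Cof {X | X ∈ F ∧ ¬ le (G X) X})
    (K : (ℕ → Bool) → ℕ → Bool) (D : Finset Code) (z₀ : ℕ → Bool)
    (hD : ∀ X ∈ F, le z₀ X → ∃ d ∈ D, Red d (K X) (G X))
    (k : ℕ) (u : Code → Code → Finset Code) (hu : ∀ i j, (u i j).card ≤ k)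
    (hinv : ∀ X ∈ F, le z₀ X → ∀ i j : Code, ∀ Y ∈ F, Red i X Y → Red j Y X →
      ∃ l ∈ u i j, Red l (K X) (K Y)) :
    ∃ z, ∀ X ∈ F, le z X → le (ch (J X)) (jn 0 X (K X)) := by
  classical
  obtain ⟨κ, -, hκ'⟩ := K7
  obtain ⟨z₁, hz₁⟩ := local_form hF hG hnt
  obtain ⟨p₁, hp₁⟩ := red_fst
  obtain ⟨p₂, hp₂⟩ := red_snd
  set u' : Code → Code → Finset Code := fun i j =>
    ((u i j) ×ˢ D).image (fun q => κ (κ (p₂, q.1), q.2)) with hu'
  refine ⟨mu3 u' z₁ z₀, fun X hXF hX => ?_⟩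
  have h0 : le z₀ X := le_trans' (K4.2.2.2 (mu3 u' z₁ z₀) z₀
    (fun n => encode ((2, (Code.zero, Code.zero, Code.zero), n) :
      ℕ × (Code × Code × Code) × ℕ)) (by fun_prop) (fun n => by rw [mu3_2])) hX
  have h1 : le z₁ X := le_trans' (K4.2.2.2 (mu3 u' z₁ z₀) z₁
    (fun n => encode ((1, (Code.zero, Code.zero, Code.zero), n) :
      ℕ × (Code × Code × Code) × ℕ)) (by fun_prop) (fun n => by rw [mu3_1])) hX
  set V := jn 0 X (K X) with hV
  have hXV : le X V := (le_iff _ _).2 ⟨p₁, hp₁ _ _⟩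
  have hmu : REIn (St V) (fun n => n ∈ St (mu3 u' z₁ z₀)) :=
    (turingReducible_iff.1 (le_trans' hX hXV)).1
  have hS : REIn (St V) (fun n : ℕ => ∃ q : Code × Code × Code, encode q = n ∧
      q.2.2 ∈ u' q.1 q.2.1) := by
    refine REIn.ex (S := fun (n : ℕ) (q : Code × Code × Code) => encode q = n ∧
      q.2.2 ∈ u' q.1 q.2.1) (REIn.and ?_ ?_)
    · exact REIn.of_re (Pool.Agent.Helper446.RE.eq (by fun_prop) (by fun_prop))
    · have h4 : REIn (St V) (fun x : ℕ × (Code × Code × Code) =>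
          encode ((0, x.2, 0) : ℕ × (Code × Code × Code) × ℕ) ∈ St (mu3 u' z₁ z₀)) :=
        REIn.comp (S := fun n => n ∈ St (mu3 u' z₁ z₀)) hmu (by fun_prop)
      refine h4.of_eq fun x => ?_
      obtain ⟨x1, i, j, l⟩ := x
      change mu3 u' z₁ z₀ _ = true ↔ _
      rw [mu3_u]
  obtain ⟨e, he⟩ := K10 V _ hS
  have he' : ∀ i j l : Code, W e V (encode (i, j, l)) ↔ l ∈ u' i j := by
    intro i j l
    rw [← he]
    constructor
    · rintro ⟨q, hq, hl⟩
      have : q = (i, j, l) := encode_injective hq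
      subst this
      exact hl
    · intro hl
      exact ⟨(i, j, l), rfl, hl⟩
  refine hz₁ X h1 V hXV (k * D.card) e ?_ ?_
  · intro i j
    have h5 : {l : Code | W e V (encode (i, j, l))} = ↑(u' i j) := by
      ext l
      simp only [Set.mem_ofPred_eq, Finset.mem_coe]
      exact he' i j l
    rw [h5, Set.encard_coe_eq_coe_finsetCard]
    have h6 : (u' i j).card ≤ k * D.card := by
      refine Finset.card_image_le.trans ?_
      rw [Finset.card_product]
      exact Nat.mul_le_mul (hu i j) le_rfl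
    exact_mod_cast h6
  · intro i j Y hYF hi hj
    obtain ⟨l, hl, hlr⟩ := hinv X hXF h0 i j Y hYF hi hj
    have hzY : le z₀ Y := le_trans' h0 ((le_iff Y X).2 ⟨j, hj⟩)
    obtain ⟨d, hd, hdr⟩ := hD Y hYF hzY
    refine ⟨κ (κ (p₂, l), d), (he' i j _).2 ?_,
      hκ' _ _ _ _ _ (hκ' _ _ _ _ _ (hp₂ _ _) hlr) hdr⟩
    rw [hu', Finset.mem_image]
    exact ⟨(l, d), Finset.mem_product.2 ⟨hl, hd⟩, rfl⟩

/-- the dichotomy -/
theorem dich_borel {F : Set (ℕ → Bool)} {G : (ℕ → Bool) → ℕ → Bool} (hF : Bor F)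
    (hG : BorOn F G) (z₀ : ℕ → Bool) (k : ℕ) (u : Code → Code → Finset Code)
    (hu : ∀ i j, (u i j).card ≤ k)
    (hinv : ∀ X ∈ F, le z₀ X → ∀ i j : Code, ∀ Y ∈ F, Red i X Y → Red j Y X →
      ∃ l ∈ u i j, Red l (G X) (G Y)) :
    (∃ z, ∀ X ∈ F, le z X → le (G X) X) ∨
      ∃ z, ∀ X ∈ F, le z X → le (ch (J X)) (jn 0 X (G X)) := by
  by_cases hnt : Cof {X | X ∈ F ∧ ¬ le (G X) X}
  · right
    obtain ⟨d, hd⟩ := exists_id
    exact above_borel hF hG hnt G {d} z₀
      (fun X _ _ => ⟨d, Finset.mem_singleton_self _, hd _⟩) k u hu hinv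
  · left
    obtain ⟨z, hz⟩ := not_cof hnt
    refine ⟨z, fun X hX hzX => ?_⟩
    by_contra h
    exact hz X ⟨hX, h⟩ hzX

/-- solutions to Post's problem -/
theorem post_borel {F : Set (ℕ → Bool)} {G : (ℕ → Bool) → ℕ → Bool} (hF : Bor F)
    (hG : BorOn F G) (hs : Cof {X | X ∈ F ∧ ¬ le (G X) X ∧ ¬ le (ch (J X)) (jn 0 X (G X))})
    (k : ℕ) : ∃ i j : Code, ∀ L : Finset Code, L.card ≤ k → ∀ z : ℕ → Bool,
      ∃ X ∈ {X | X ∈ F ∧ ¬ le (G X) X ∧ ¬ le (ch (J X)) (jn 0 X (G X))},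
      ∃ Y ∈ {X | X ∈ F ∧ ¬ le (G X) X ∧ ¬ le (ch (J X)) (jn 0 X (G X))},
        le z X ∧ Red i X Y ∧ Red j Y X ∧ ∀ l ∈ L, ¬ Red l (G X) (G Y) := by
  set F₁ : Set (ℕ → Bool) := {X | X ∈ F ∧ ¬ le (G X) X ∧ ¬ le (ch (J X)) (jn 0 X (G X))}
    with hF₁
  have hb : Bor F₁ := bor_sol hF hG
  have hG₁ : BorOn F₁ G := borOn_sub hG hb fun X hX => hX.1
  refine no_cand G F₁ k fun u z₂ hu hinv => ?_
  rcases dich_borel hb hG₁ z₂ k u hu hinv with ⟨z, hz⟩ | ⟨z, hz⟩
  · obtain ⟨X, hX, hzX⟩ := hs z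
    exact hX.2.1 (hz X hX hzX)
  · obtain ⟨X, hX, hzX⟩ := hs z
    exact hX.2.2 (hz X hX hzX)

/-- the value of a program as an oracle -/
noncomputable def fv (i : Code) (X : ℕ → Bool) : ℕ → Bool :=
  ch (fun n => ∃ s, 1 ∈ i.eval (encode (n, seg X s)))

theorem ch_iff {P : ℕ → Prop} {n : ℕ} : ch P n = true ↔ P n := by
  classical
  unfold ch
  simp

theorem fv_eq {i : Code} {X Y : ℕ → Bool} (h : Red i X Y) : fv i X = Y := by
  funext n
  have h1 := h n 1
  have h2 : (1 = (Y n).toNat) ↔ Y n = true := by cases Y n <;> simp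
  exact Bool.eq_iff_iff.2 (ch_iff.trans (h1.trans h2))

theorem meas_fv (i : Code) : Measurable (fv i) := by
  refine meas_dec fun n => ?_
  exact Measurable.exists fun s => meas_seg' measurable_id s
    (fun σ => 1 ∈ i.eval (encode (n, σ)))

/-- one program -/
theorem one_indep {F : Set (ℕ → Bool)} (hF : Bor F) (hc : Cof F) (i : Code) :
    ∃ F' : Set (ℕ → Bool), F' ⊆ F ∧ Clo F' ∧ Cof F' ∧ ∀ X ∈ F', ∀ Y ∈ F', Red i X Y → X = Y := by
  have hF' := (bor_iff _).1 hF
  let B : Option Str → Set (ℕ → Bool) := fun o =>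
    match o with
    | none => {X | X ∈ F ∧ (Red i X (fv i X) → ∀ t, ∃ σ, seg X t = σ ∧ seg (fv i X) t = σ)}
    | some σ => {X | X ∈ F ∧ (seg X σ.length = σ ∧ ¬ seg (fv i X) σ.length = σ)}
  have hBb : ∀ o, Bor (B o) := by
    intro o
    rw [bor_iff]
    cases o with
    | none =>
      refine measurableSet_setOfPred.2 (Measurable.and (measurableSet_setOfPred.1 hF')
        (Measurable.imp (meas_red measurable_id (meas_fv i) i)
          (Measurable.forall fun t => Measurable.exists fun σ => Measurable.and ?_ ?_)))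
      · exact meas_seg' measurable_id t (fun x => x = σ)
      · exact meas_seg' (meas_fv i) t (fun x => x = σ)
    | some σ =>
      refine measurableSet_setOfPred.2 (Measurable.and (measurableSet_setOfPred.1 hF')
        (Measurable.and ?_ (Measurable.not ?_)))
      · exact meas_seg' measurable_id σ.length (fun x => x = σ)
      · exact meas_seg' (meas_fv i) σ.length (fun x => x = σ)
  obtain ⟨o, ho⟩ := cof_union hc B fun X hX => by
    by_cases h : ∀ t, seg X t = seg (fv i X) t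
    · exact ⟨none, hX, fun _ t => ⟨seg X t, rfl, (h t).symm⟩⟩
    · push Not at h
      obtain ⟨t, ht⟩ := h
      refine ⟨some (seg X t), hX, ?_, ?_⟩
      · rw [seg_len]
      · rw [seg_len]
        exact fun h' => ht h'.symm
  obtain ⟨F', g1, g2, g3⟩ := closed_sub (hBb o) ho
  have hBF : ∀ o, B o ⊆ F := by
    intro o X hX
    cases o with
    | none => exact hX.1
    | some σ => exact hX.1
  refine ⟨F', g1.trans (hBF o), g2, g3, fun X hX Y hY hi => ?_⟩
  have e := fv_eq hi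
  have hX' := g1 hX
  have hY' := g1 hY
  cases o with
  | none =>
    have h1 := hX'.2 (by rw [e]; exact hi)
    rw [e] at h1
    funext n
    obtain ⟨σ, h2, h3⟩ := h1 (n + 1)
    exact seg_inj (h2.trans h3.symm) (Nat.lt_succ_self n)
  | some σ =>
    have h1 : ¬ seg (fv i X) σ.length = σ := hX'.2.2
    rw [e] at h1
    exact absurd hY'.2.1 h1

/-- finitely many programs -/
theorem fin_indep {F : Set (ℕ → Bool)} (hF : Bor F) (hc : Cof F) (P : Finset Code) :
    ∃ F' : Set (ℕ → Bool), F' ⊆ F ∧ Clo F' ∧ Cof F' ∧ ∀ i ∈ P, ∀ X ∈ F', ∀ Y ∈ F',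
      Red i X Y → X = Y := by
  classical
  induction P using Finset.induction_on with
  | empty =>
    obtain ⟨F', g1, g2, g3⟩ := closed_sub hF hc
    exact ⟨F', g1, g2, g3, fun p hp => absurd hp (Finset.notMem_empty p)⟩
  | insert p P _ ih =>
    obtain ⟨F', g1, g2, g3, g4⟩ := ih
    obtain ⟨F'', k1, k2, k3, hl⟩ := one_indep (bor_of_clo g2) g3 p
    refine ⟨F'', k1.trans g1, k2, k3, fun q hq => ?_⟩
    rcases Finset.mem_insert.1 hq with rfl | hq
    · exact hl
    · exact fun X hX Y hY => g4 q hq X (k1 hX) Y (k1 hY)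

theorem borOn_univ {G : (ℕ → Bool) → ℕ → Bool} : BorOn Set.univ G ↔ Measurable G := by
  constructor
  · intro h
    have h1 := exG_meas h
    have h2 : exG Set.univ G = G := by
      funext X
      exact exG_eq (Set.mem_univ X)
    rwa [h2] at h1
  · intro h n
    rw [bor_iff]
    exact measurableSet_setOfPred.2 (Measurable.and measurable_const
      (meas_bit h n (fun b => b = true)))

theorem borOn_comp {G H : (ℕ → Bool) → ℕ → Bool} (hG : BorOn Set.univ G)
    (hH : BorOn Set.univ H) : BorOn Set.univ (fun X => G (H X)) :=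
  borOn_univ.2 ((borOn_univ.1 hG).comp (borOn_univ.1 hH))

theorem borOn_W (r : Code) : BorOn Set.univ (fun X => ch (W r X)) :=
  borOn_univ.2 (meas_W r)

end Pool.Agent.V7H66.BO
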